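import Pool.Agent.R999.Far

/-!
# The Thomas-Fermi molecular energy minus the atomic energies is not superadditive

For every `k ≥ 2` and all different nuclear positions.
-/

set_option autoImplicit false

open MeasureTheory Set Filter Topology Metric
open scoped ENNReal

namespace Pool.Agent.Results.MP_f156ce_mp.NotSuperadditive

/-- Three dimensional Euclidean space. -/
abbrev R3 := EuclideanSpace ℝ (Fin 3)

/-- `ρ ≥ 0` and `ρ ∈ L¹ ∩ L^{5/3}`. -/
structure Density (ρ : R3 → ℝ) : Prop where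
  nonneg : ∀ x, 0 ≤ ρ x
  integrable : Integrable ρ
  integrable_rpow : Integrable (fun x => ρ x ^ (5/3 : ℝ))

/-- The Thomas-Fermi functional `ξ` for the nuclear positions `R` and the charges `z`. -/
noncomputable def xi {k : ℕ} (R : Fin k → R3) (z : Fin k → ℝ) (ρ : R3 → ℝ) : ℝ :=
  3/5 * (∫ x, ρ x ^ (5/3 : ℝ)) - (∫ x, (∑ j, z j / ‖x - R j‖) * ρ x) +
    1/2 * (∫ x, ∫ y, ρ x * ρ y / ‖x - y‖) +
    ∑ i, ∑ j ∈ Finset.univ.filter (fun j => i < j), z i * z j / ‖R i - R j‖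

/-- The values of `ξ` on the densities with `∫ρ = ∑ z`. -/
def energies {k : ℕ} (R : Fin k → R3) (z : Fin k → ℝ) : Set ℝ :=
  {e | ∃ ρ : R3 → ℝ, Density ρ ∧ ∫ x, ρ x = ∑ j, z j ∧ xi R z ρ = e}

/-- The neutral Thomas-Fermi energy `e`. -/
noncomputable def e {k : ℕ} (R : Fin k → R3) (z : Fin k → ℝ) : ℝ := sInf (energies R z)

/-- The energy of an atom of charge `z` (one nucleus, at the origin). -/
noncomputable def eAt (z : ℝ) : ℝ := e (k := 1) (fun _ => 0) (fun _ => z)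

/-- `f = e - ẽ`. -/
noncomputable def f {k : ℕ} (R : Fin k → R3) (z : Fin k → ℝ) : ℝ := e R z - ∑ j, eAt (z j)

/-- `F` is superadditive on the nonnegative orthant. -/
def Superadditive {k : ℕ} (F : (Fin k → ℝ) → ℝ) : Prop :=
  ∀ z₁ z₂ : Fin k → ℝ, (∀ j, 0 ≤ z₁ j) → (∀ j, 0 ≤ z₂ j) → F z₁ + F z₂ ≤ F (z₁ + z₂)

open Pool.Agent.TH791.Cl Pool.Agent.R999.MinP Pool.Agent.R999.Ex

variable {k : ℕ}

lemma energies_eq (R : Fin k → R3) (z : Fin k → ℝ) :
    energies R z = {e : ℝ | ∃ σ, Pool.Agent.R999.TFMin.Dens σ ∧ ∫ x, σ x = ∑ j, z j ∧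
      Pool.Agent.R999.TFMin.energy 1 (Vn z R) σ + UU z R = e} := by
  have h1 : ∀ ρ, xi R z ρ = Pool.Agent.R999.TFMin.energy 1 (Vn z R) ρ + UU z R := by
    intro ρ
    rw [UU_lt]
    unfold xi Pool.Agent.R999.TFMin.energy
    rw [mul_one]; rfl
  ext e
  constructor
  · rintro ⟨ρ, ⟨a, b, c⟩, d, rfl⟩
    exact ⟨ρ, ⟨a, b, c⟩, d, (h1 ρ).symm⟩
  · rintro ⟨ρ, ⟨a, b, c⟩, d, rfl⟩
    exact ⟨ρ, ⟨a, b, c⟩, d, h1 ρ⟩

lemma least_FE {z : Fin k → ℝ} {R : Fin k → R3} {ρ : R3 → ℝ} (h : TFs 1 z R ρ) :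
    IsLeast (energies R z) (FE 1 z R ρ) := by
  rw [energies_eq]; exact least one_pos h

lemma e_eq {z : Fin k → ℝ} {R : Fin k → R3} {ρ : R3 → ℝ} (h : TFs 1 z R ρ) :
    e R z = FE 1 z R ρ :=
  (least_FE h).csInf_eq

lemma sum_single (z : Fin k → ℝ) (m : Fin k) (F : Fin k → ℝ) :
    ∑ p, zS id z {m} p * F p = z m * F m := by
  rw [Finset.sum_eq_single m]
  · unfold zS; simp
  · intro b _ hb
    unfold zS
    rw [if_neg (by simpa using hb)]; ring
  · intro h; exact absurd (Finset.mem_univ m) h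

lemma Vn_single (z : Fin k → ℝ) (R : Fin k → R3) (m : Fin k) (x : R3) :
    Vn (zS id z {m}) R x = Vn (fun _ : Fin 1 => z m) (fun _ => 0) (x - R m) := by
  have h := sum_single z m (fun p => 1 / ‖x - R p‖)
  unfold Vn
  simp only [mul_one_div] at h
  rw [h]
  simp

lemma mass_single (z : Fin k → ℝ) (m : Fin k) :
    ∑ p, zS id z {m} p = ∑ _i : Fin 1, z m := by
  have h := sum_single z m (fun _ => 1)
  simpa using h

lemma UU_single (z : Fin k → ℝ) (R : Fin k → R3) (m : Fin k) :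
    UU (zS id z {m}) R = UU (fun _ : Fin 1 => z m) (fun _ => (0 : R3)) := by
  unfold UU
  congr 1
  have h1 : ∀ p : Fin k, ∑ q, zS id z {m} p * zS id z {m} q / ‖R p - R q‖ =
      zS id z {m} p * (z m * (1 / ‖R p - R m‖)) := by
    intro p
    rw [← sum_single z m (fun q => 1 / ‖R p - R q‖), Finset.mul_sum]
    exact Finset.sum_congr rfl fun q _ => by ring
  rw [Finset.sum_congr rfl fun p _ => h1 p, sum_single z m (fun p => z m * (1 / ‖R p - R m‖))]
  simp

/-- the energies of a family of Thomas-Fermi systems -/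
lemma family (R : Fin k → R3) (z : Fin k → ℝ) (hz : ∀ j, 0 ≤ z j) :
    ∃ ρ : Finset (Fin k) → R3 → ℝ, (∀ S, TFs 1 (zS id z S) R (ρ S)) ∧
      f R z = FE 1 (zS id z Finset.univ) R (ρ Finset.univ) -
        ∑ m, FE 1 (zS id z {m}) R (ρ {m}) := by
  classical
  choose ρ T using fun S => tf_ex one_pos (zS_nonneg (col := (id : Fin k → Fin k)) hz S) R
  refine ⟨ρ, T, ?_⟩
  have e1 : zS (id : Fin k → Fin k) z Finset.univ = z := by
    funext p; unfold zS; simp
  have h1 := T Finset.univ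
  have h2 : e R z = FE 1 (zS id z Finset.univ) R (ρ Finset.univ) := by
    rw [e1] at h1 ⊢; exact e_eq h1
  have h3 : ∀ m, eAt (z m) = FE 1 (zS id z {m}) R (ρ {m}) := by
    intro m
    obtain ⟨σ, hσ⟩ := tf_ex one_pos (z := fun _ : Fin 1 => z m) (fun _ => hz m)
      (fun _ => (0 : R3))
    have h4 := hσ.shift (z' := zS id z {m}) (R' := R) (Vn_single z R m) (mass_single z m)
      (fun x hx j hj h5 => by
        refine hx m ?_ (sub_eq_zero.1 h5)
        unfold zS; simpa using hj)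
    have h5 := TFs.en_eq one_pos (T {m}) h4
    unfold eAt
    rw [e_eq hσ, h5]
    unfold FE
    rw [UU_single z R m, En_shift hσ.md (Vn_single z R m)]
  unfold f
  rw [h2, Finset.sum_congr rfl fun m _ => h3 m]

lemma f_nonneg (R : Fin k → R3) (hR : Function.Injective R) (z : Fin k → ℝ) (hz : ∀ j, 0 ≤ z j)
    {a b : Fin k} (hab : b ≠ a) : 0 ≤ f R z ∧ (0 < z a → 0 < z b → 0 < f R z) := by
  classical
  obtain ⟨ρ, T, hf⟩ := family R z hz
  have hRne : ∀ p q : Fin k, 0 < z p → 0 < z q → id p ≠ id q → R p ≠ R q :=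
    fun p q _ _ h h2 => h (hR h2)
  have ha1 : a ∉ (Finset.univ \ {a, b} : Finset (Fin k)) := by simp
  have hb1 : b ∉ (Finset.univ \ {a, b} : Finset (Fin k)) := by simp
  have h1 := all_lo one_pos hz hRne T hab (Finset.univ \ {a, b}) ha1 hb1
  have e1 : insert a (insert b (Finset.univ \ {a, b})) = (Finset.univ : Finset (Fin k)) := by
    ext x
    simp only [Finset.mem_insert, Finset.mem_sdiff, Finset.mem_univ, Finset.mem_singleton,
      true_and, iff_true]
    tauto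
  rw [e1] at h1
  have h2 := gain_nonneg (T {a}).md (T {b}).md
  refine ⟨by rw [hf]; linarith, fun hza hzb => ?_⟩
  have h3 := gain_pos one_pos (zS_nonneg hz {a}) (zS_nonneg hz {b}) (T {a}) (T {b}) (a := a) (b := b)
    (by unfold zS; simpa using hza) (by unfold zS; simpa using hzb)
  rw [hf]; linarith

lemma f_bdd (R : Fin k → R3) (hR : Function.Injective R) (hk : 2 ≤ k) :
    ∃ C : ℝ, ∀ z : Fin k → ℝ, (∀ j, 0 ≤ z j) → f R z ≤ C := by
  classical
  obtain ⟨d, hd, hsep⟩ : ∃ d : ℝ, 0 < d ∧ ∀ a b, a ≠ b → d ≤ ‖R a - R b‖ := by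
    set T : Finset (Fin k × Fin k) := Finset.univ.filter fun p => p.1 ≠ p.2 with hT
    have hne : T.Nonempty := by
      refine ⟨(⟨0, by omega⟩, ⟨1, by omega⟩), ?_⟩
      rw [hT, Finset.mem_filter]
      refine ⟨Finset.mem_univ _, ?_⟩
      intro h
      simp at h
    obtain ⟨p, hp, hmin⟩ := Finset.exists_min_image T (fun p => ‖R p.1 - R p.2‖) hne
    rw [hT, Finset.mem_filter] at hp
    refine ⟨‖R p.1 - R p.2‖, norm_pos_iff.2 (sub_ne_zero.2 fun h => hp.2 (hR h)),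
      fun a b hab => ?_⟩
    exact hmin (a, b) (by rw [hT, Finset.mem_filter]; exact ⟨Finset.mem_univ _, hab⟩)
  refine ⟨(Finset.univ : Finset (Fin k)).card *
    (Cup 1 (Fintype.card (Fin k)) (Fintype.card (Fin k)) / (d / 8) ^ 7), fun z hz => ?_⟩
  obtain ⟨ρ, T, hf⟩ := family R z hz
  have h1 := all_up one_pos hz T (Y := R) (s := d / 8) (by positivity) (fun p m _ hpm => by
      have := hsep p m hpm
      linarith) (fun p _ => by
      show ‖R p - R p‖ ≤ _
      rw [sub_self, norm_zero]; positivity) Finset.univ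
  rw [hf]; linarith

/-- **`f = e - ẽ` is not superadditive**, for any `k ≥ 2` and any different points `R_1, …, R_k`.
In fact `f` is bounded on the orthant and positive at every `z` with two positive charges, and each
such `z` has a multiple `w = 2^m z` with `f(w + w) < f(w) + f(w)`.  The infima defining `e` are
attained. -/
theorem result (k : ℕ) (hk : 2 ≤ k) (R : Fin k → R3) (hR : Function.Injective R) :
    (∀ z : Fin k → ℝ, (∀ j, 0 ≤ z j) → IsLeast (energies R z) (e R z)) ∧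
    (∀ z : ℝ, 0 ≤ z → IsLeast (energies (k := 1) (fun _ => 0) (fun _ => z)) (eAt z)) ∧
    (∃ C : ℝ, ∀ z : Fin k → ℝ, (∀ j, 0 ≤ z j) → 0 ≤ f R z ∧ f R z ≤ C) ∧
    (∀ z : Fin k → ℝ, (∀ j, 0 ≤ z j) → (∃ i j, i ≠ j ∧ 0 < z i ∧ 0 < z j) →
      0 < f R z ∧ ∃ m : ℕ,
        f R ((2 ^ m : ℝ) • z + (2 ^ m : ℝ) • z) < f R ((2 ^ m : ℝ) • z) + f R ((2 ^ m : ℝ) • z)) ∧
    ¬ Superadditive (f R) := by
  classical
  have hatt : ∀ {k' : ℕ} (R : Fin k' → R3) (z : Fin k' → ℝ), (∀ j, 0 ≤ z j) →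
      IsLeast (energies R z) (e R z) := by
    intro k' R z hz
    obtain ⟨ρ, hρ⟩ := tf_ex one_pos hz R
    rw [e_eq hρ]; exact least_FE hρ
  obtain ⟨C, hC⟩ := f_bdd R hR hk
  have hab : (⟨1, by omega⟩ : Fin k) ≠ ⟨0, by omega⟩ := by
    intro h
    simp at h
  have key : ∀ z : Fin k → ℝ, (∀ j, 0 ≤ z j) → (∃ i j, i ≠ j ∧ 0 < z i ∧ 0 < z j) →
      0 < f R z ∧ ∃ m : ℕ,
        f R ((2 ^ m : ℝ) • z + (2 ^ m : ℝ) • z) <
          f R ((2 ^ m : ℝ) • z) + f R ((2 ^ m : ℝ) • z) := by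
    intro z hz ⟨i, j, hij, hi, hj⟩
    have hpos := (f_nonneg R hR z hz (Ne.symm hij)).2 hi hj
    refine ⟨hpos, ?_⟩
    by_contra hcon
    push Not at hcon
    have hgrow : ∀ m : ℕ, 2 ^ m * f R z ≤ f R ((2 ^ m : ℝ) • z) := by
      intro m
      induction m with
      | zero => simp
      | succ m ih =>
        have h1 := hcon m
        have e1 : ((2:ℝ) ^ m) • z + ((2:ℝ) ^ m) • z = ((2:ℝ) ^ (m + 1)) • z := by
          rw [← add_smul]; congr 1; ring
        rw [e1] at h1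
        rw [pow_succ]
        rw [pow_succ] at h1
        linarith
    obtain ⟨m, hm⟩ := pow_unbounded_of_one_lt (C / f R z) (one_lt_two (α := ℝ))
    rw [div_lt_iff₀ hpos] at hm
    have h1 := hgrow m
    have h2 := hC ((2 ^ m : ℝ) • z) (fun j => by
      show 0 ≤ (2 ^ m : ℝ) * z j
      exact mul_nonneg (by positivity) (hz j))
    linarith
  refine ⟨hatt R, fun z hz => hatt _ _ (fun _ => hz), ⟨C, fun z hz => ⟨(f_nonneg R hR z hz hab).1,
    hC z hz⟩⟩, key, fun hSA => ?_⟩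
  obtain ⟨-, m, hm⟩ := key (fun _ => 1) (fun _ => zero_le_one)
    ⟨⟨1, by omega⟩, ⟨0, by omega⟩, hab, one_pos, one_pos⟩
  have h0 : ∀ j : Fin k, 0 ≤ ((2 ^ m : ℝ) • (fun _ : Fin k => (1:ℝ))) j := by
    intro j
    show 0 ≤ (2 ^ m : ℝ) * 1
    positivity
  have := hSA _ _ h0 h0
  linarith

end Pool.Agent.Results.MP_f156ce_mp.NotSuperadditive
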